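import Pool.Agent.Helper76.TC2.Goals

set_option autoImplicit false

open Set

namespace Pool.Agent.Helper36.TC2.IN

open Pool.Agent.Helper76.TC2

theorem t (IB : S_IB) (G2 : S_G2) : S_IN := by
  intro n A d hB hQ x y
  obtain ⟨-, -, -, hBi⟩ := IB n A d hB hQ
  obtain ⟨γ, h0, hD, hle⟩ := G2 n A d hB hQ x y
  have key : ∀ s t : ℝ, 0 ≤ s → s ≤ t → t ≤ ii n d x y → ii n d (γ s) (γ t) = t - s := by
    intro s t hs hst htD
    have a := hle 0 s le_rfl hs (le_trans hst htD)
    have b := hle s t hs hst htD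
    have c := hle t (ii n d x y) (le_trans hs hst) htD le_rfl
    rw [h0] at a
    rw [hD] at c
    have t1 := hBi.triangle x (γ s) y
    have t2 := hBi.triangle (γ s) (γ t) y
    linarith
  refine ⟨γ, h0, hD, ?_⟩
  intro s hs t ht
  rcases le_total s t with h | h
  · rw [key s t hs.1 h ht.2, abs_sub_comm, abs_of_nonneg (sub_nonneg.mpr h)]
  · rw [hBi.symm, key t s ht.1 h hs.2, abs_of_nonneg (sub_nonneg.mpr h)]

end Pool.Agent.Helper36.TC2.IN
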